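import Mathlib

/-!
# MP_451208_an: a topologically mixing subshift over `ℤ` that is not surjunctive

The subshift consists of all triples `(P, Q, R)` of subsets of `ℤ` (coded over an alphabet of
eight letters) for which there is no three-term arithmetic progression `r < q < p` with
`r ∈ R`, `q ∈ Q`, `p ∈ P`.  The cellular automaton is `(P, Q, R) ↦ (P, Q + 1, R + 2)`.
-/

set_option autoImplicit false

namespace Pool.Agent.Results.MP_451208_an.NotSurjunctive

/-- the shift `σ(x)_n = x_{n+1}`. -/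
def shift {A : Type} (x : ℤ → A) : ℤ → A := fun n => x (n + 1)

/-- a subshift over `ℤ`: a closed set `X` with `σ(X) = X`. -/
def IsSubshift {A : Type} [TopologicalSpace A] (X : Set (ℤ → A)) : Prop :=
  IsClosed X ∧ shift '' X = X

/-- topological mixing of `X`. -/
def IsMixing {A : Type} [TopologicalSpace A] (X : Set (ℤ → A)) : Prop :=
  ∀ U V : Set X, IsOpen U → IsOpen V → U.Nonempty → V.Nonempty →
    ∃ N : ℕ, ∀ n ≥ N, ∃ x ∈ U, ∃ y ∈ V, (y : ℤ → A) = shift^[n] (x : ℤ → A)

/-- a cellular automaton on `X`: a continuous map `X → X` commuting with the shift. -/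
def IsCellularAutomaton {A : Type} [TopologicalSpace A] (X : Set (ℤ → A)) (τ : X → X) : Prop :=
  Continuous τ ∧ ∀ x y : X, (y : ℤ → A) = shift (x : ℤ → A) →
    ((τ y : X) : ℤ → A) = shift ((τ x : X) : ℤ → A)

/-- the alphabet. -/
abbrev Al : Type := Bool × Bool × Bool

/-- the subshift of triples without increasing progression `r < q < p`. -/
def XX : Set (ℤ → Al) :=
  {x | ∀ i k : ℤ, 1 ≤ k →
    ¬ ((x i).1 = true ∧ (x (i - k)).2.1 = true ∧ (x (i - 2 * k)).2.2 = true)}

/-- the rule `(P, Q, R) ↦ (P, Q + 1, R + 2)`. -/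
def T (x : ℤ → Al) : ℤ → Al := fun i => ((x i).1, (x (i - 1)).2.1, (x (i - 2)).2.2)

lemma T_mem {x : ℤ → Al} (hx : x ∈ XX) : T x ∈ XX := by
  intro i k hk h
  simp only [T] at h
  obtain ⟨h1, h2, h3⟩ := h
  apply hx i (k + 1) (by omega)
  refine ⟨h1, ?_, ?_⟩
  · rw [show i - (k + 1) = i - k - 1 by ring]; exact h2
  · rw [show i - 2 * (k + 1) = i - 2 * k - 2 by ring]; exact h3

lemma T_inj : Function.Injective T := by
  intro x y h
  funext i
  have h1 := congrFun h i
  have h2 := congrFun h (i + 1)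
  have h3 := congrFun h (i + 2)
  simp only [T, Prod.mk.injEq] at h1 h2 h3
  have e1 : i + 1 - 1 = i := by ring
  have e2 : i + 2 - 2 = i := by ring
  rw [e1] at h2
  rw [e2] at h3
  exact Prod.ext h1.1 (Prod.ext h2.2.1 h3.2.2)

lemma closed_XX : IsClosed XX := by
  have : XX = ⋂ (i : ℤ) (k : ℤ) (_ : 1 ≤ k), {x : ℤ → Al |
      ¬ ((x i).1 = true ∧ (x (i - k)).2.1 = true ∧ (x (i - 2 * k)).2.2 = true)} := by
    ext x
    simp [XX]
  rw [this]
  refine isClosed_iInter fun i => isClosed_iInter fun k => isClosed_iInter fun _ => ?_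
  have hc : Continuous (fun x : ℤ → Al => (x i, x (i - k), x (i - 2 * k))) := by fun_prop
  exact (isClosed_discrete {t : Al × Al × Al |
    ¬ (t.1.1 = true ∧ t.2.1.2.1 = true ∧ t.2.2.2.2 = true)}).preimage hc

lemma shift_mem {x : ℤ → Al} (hx : x ∈ XX) : shift x ∈ XX := by
  intro i k hk h
  simp only [shift] at h
  apply hx (i + 1) k hk
  refine ⟨h.1, ?_, ?_⟩
  · rw [show i + 1 - k = i - k + 1 by ring]; exact h.2.1
  · rw [show i + 1 - 2 * k = i - 2 * k + 1 by ring]; exact h.2.2

lemma unshift_mem {x : ℤ → Al} (hx : x ∈ XX) : (fun i => x (i - 1)) ∈ XX := by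
  intro i k hk h
  apply hx (i - 1) k hk
  refine ⟨h.1, ?_, ?_⟩
  · rw [show i - 1 - k = i - k - 1 by ring]; exact h.2.1
  · rw [show i - 1 - 2 * k = i - 2 * k - 1 by ring]; exact h.2.2

lemma shift_iter (n : ℕ) (x : ℤ → Al) (i : ℤ) : shift^[n] x i = x (i + n) := by
  induction n generalizing i with
  | zero => simp
  | succ n ih =>
    rw [Function.iterate_succ_apply']
    show shift^[n] x (i + 1) = _
    rw [ih]
    congr 1
    push_cast
    ring

lemma shift_iter_mem (n : ℕ) {x : ℤ → Al} (hx : x ∈ XX) : shift^[n] x ∈ XX := by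
  induction n with
  | zero => exact hx
  | succ n ih => rw [Function.iterate_succ_apply']; exact shift_mem ih

/-- neighbourhoods contain cylinders. -/
lemma exists_cyl (U : Set XX) (hU : IsOpen U) (x : XX) (hx : x ∈ U) :
    ∃ m : ℕ, ∀ y : XX, (∀ i : ℤ, |i| ≤ m → y.1 i = x.1 i) → y ∈ U := by
  obtain ⟨U', hU', rfl⟩ := isOpen_induced_iff.1 hU
  obtain ⟨I, u, hu, hsub⟩ := isOpen_pi_iff.1 hU' x.1 hx
  obtain ⟨m, hm⟩ : ∃ m : ℕ, ∀ i ∈ I, |i| ≤ m := by
    refine ⟨∑ i ∈ I, i.natAbs, fun i hi => ?_⟩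
    have h2 : i.natAbs ≤ ∑ i ∈ I, i.natAbs :=
      Finset.single_le_sum (f := fun i : ℤ => i.natAbs) (fun _ _ => Nat.zero_le _) hi
    rw [abs_le]; omega
  refine ⟨m, fun y hy => hsub ?_⟩
  intro i hi
  rw [hy i (hm i hi)]
  exact (hu i hi).2

lemma glue {x y : ℤ → Al} (hx : x ∈ XX) (hy : y ∈ XX) (m n : ℕ) (hn : 4 * m + 1 ≤ n) :
    (fun i : ℤ => if |i| ≤ m then x i else if |i - n| ≤ m then y (i - n)
      else (false, false, false)) ∈ XX := by
  intro i k hk h
  obtain ⟨h1, h2, h3⟩ := h
  have hn' : (4 * (m : ℤ) + 1) ≤ n := by exact_mod_cast hn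
  -- every site with a nonzero letter lies in one of the two windows
  have key : ∀ j : ℤ, (¬ |j| ≤ (m : ℤ)) → (¬ |j - n| ≤ (m : ℤ)) →
      (if |j| ≤ (m : ℤ) then x j else if |j - n| ≤ (m : ℤ) then y (j - n)
        else ((false, false, false) : Al)) = (false, false, false) := by
    intro j h h'
    rw [if_neg h, if_neg h']
  by_cases a1 : |i| ≤ (m : ℤ)
  · by_cases a2 : |i - 2 * k| ≤ (m : ℤ)
    · have a3 : |i - k| ≤ (m : ℤ) := by
        rw [abs_le] at a1 a2 ⊢
        omega
      simp only [if_pos a1] at h1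
      simp only [if_pos a2] at h3
      simp only [if_pos a3] at h2
      exact hx i k hk ⟨h1, h2, h3⟩
    · have a4 : ¬ |i - 2 * k - n| ≤ (m : ℤ) := by
        rw [abs_le] at a1 ⊢
        omega
      have := key _ a2 a4
      simp only at h3
      rw [this] at h3
      simp at h3
  · by_cases a2 : |i - n| ≤ (m : ℤ)
    · by_cases a3 : |i - 2 * k| ≤ (m : ℤ)
      · have b1 : ¬ |i - k| ≤ (m : ℤ) := by
          rw [abs_le] at a1 a2 a3 ⊢
          omega
        have b2 : ¬ |i - k - n| ≤ (m : ℤ) := by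
          rw [abs_le] at a1 a2 a3 ⊢
          omega
        have := key _ b1 b2
        simp only at h2
        rw [this] at h2
        simp at h2
      · by_cases a4 : |i - 2 * k - n| ≤ (m : ℤ)
        · have b1 : ¬ |i - k| ≤ (m : ℤ) := by
            rw [abs_le] at a1 a2 a3 a4 ⊢
            omega
          have b2 : |i - k - n| ≤ (m : ℤ) := by
            rw [abs_le] at a1 a2 a3 a4 ⊢
            omega
          simp only [if_neg a1, if_pos a2] at h1
          simp only [if_neg b1, if_pos b2] at h2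
          simp only [if_neg a3, if_pos a4] at h3
          apply hy (i - n) k hk
          refine ⟨h1, ?_, ?_⟩
          · rw [show i - n - k = i - k - n by ring]; exact h2
          · rw [show i - n - 2 * k = i - 2 * k - n by ring]; exact h3
        · have := key _ a3 a4
          simp only at h3
          rw [this] at h3
          simp at h3
    · have := key _ a1 a2
      simp only at h1
      rw [this] at h1
      simp at h1

/-- **There is a topologically mixing subshift over `ℤ` that is not surjunctive.** -/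
theorem result :
    ∃ (A : Type) (_ : Finite A) (_ : TopologicalSpace A) (_ : DiscreteTopology A)
      (X : Set (ℤ → A)), IsSubshift X ∧ IsMixing X ∧
      ∃ τ : X → X, IsCellularAutomaton X τ ∧ Function.Injective τ ∧ ¬ Function.Surjective τ := by
  refine ⟨Al, inferInstance, inferInstance, inferInstance, XX, ⟨closed_XX, ?_⟩, ?_,
    fun x => ⟨T x.1, T_mem x.2⟩, ⟨?_, ?_⟩, ?_, ?_⟩
  · apply Set.Subset.antisymm
    · rintro _ ⟨x, hx, rfl⟩
      exact shift_mem hx
    · intro x hx
      refine ⟨fun i => x (i - 1), unshift_mem hx, ?_⟩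
      funext i
      simp [shift]
  · intro U V hU hV ⟨x, hx⟩ ⟨y, hy⟩
    obtain ⟨m₁, h₁⟩ := exists_cyl U hU x hx
    obtain ⟨m₂, h₂⟩ := exists_cyl V hV y hy
    refine ⟨4 * max m₁ m₂ + 1, fun n hn => ?_⟩
    have hz := glue x.2 y.2 (max m₁ m₂) n hn
    have hn' : (4 * ((max m₁ m₂ : ℕ) : ℤ) + 1) ≤ n := by exact_mod_cast hn
    refine ⟨⟨_, hz⟩, h₁ _ ?_, ⟨_, shift_iter_mem n hz⟩, h₂ _ ?_, rfl⟩
    · intro i hi
      have : |i| ≤ ((max m₁ m₂ : ℕ) : ℤ) := le_trans hi (by exact_mod_cast le_max_left _ _)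
      simp only [if_pos this]
    · intro i hi
      have h3 : |i| ≤ ((max m₁ m₂ : ℕ) : ℤ) := le_trans hi (by exact_mod_cast le_max_right _ _)
      show shift^[n] _ i = _
      rw [shift_iter]
      have e : i + (n : ℤ) - n = i := by ring
      have h4 : ¬ |i + (n : ℤ)| ≤ ((max m₁ m₂ : ℕ) : ℤ) := by
        rw [abs_le] at h3 ⊢
        omega
      have h5 : |i + (n : ℤ) - n| ≤ ((max m₁ m₂ : ℕ) : ℤ) := by rw [e]; exact h3
      rw [if_neg h4, if_pos h5, e]
  · apply Continuous.subtype_mk
    apply continuous_pi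
    intro i
    have hc : Continuous (fun x : XX => (x.1 i, x.1 (i - 1), x.1 (i - 2))) :=
      ((continuous_apply i).comp continuous_subtype_val).prodMk
        (((continuous_apply (i - 1)).comp continuous_subtype_val).prodMk
          ((continuous_apply (i - 2)).comp continuous_subtype_val))
    exact (continuous_of_discreteTopology (f := fun t : Al × Al × Al =>
      ((t.1.1, t.2.1.2.1, t.2.2.2.2) : Al))).comp hc
  · intro x y hxy
    show T y.1 = shift (T x.1)
    rw [hxy]
    funext i
    simp only [T, shift]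
    have e1 : i - 1 + 1 = i + 1 - 1 := by ring
    have e2 : i - 2 + 1 = i + 1 - 2 := by ring
    rw [e1, e2]
  · intro x y h
    exact Subtype.ext (T_inj (congrArg Subtype.val h))
  · intro hs
    have hz : (fun i : ℤ => if i = 0 then ((true, true, true) : Al) else (false, false, false))
        ∈ XX := by
      intro i k hk h
      obtain ⟨h1, h2, -⟩ := h
      by_cases hi : i = 0
      · by_cases hik : i - k = 0
        · omega
        · simp [hik] at h2
      · simp [hi] at h1
    obtain ⟨x, hx⟩ := hs ⟨_, hz⟩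
    have h0 : T x.1 0 = (true, true, true) := by
      have := congrFun (congrArg Subtype.val hx) 0
      simpa using this
    simp only [T, Prod.mk.injEq] at h0
    apply x.2 0 1 le_rfl
    refine ⟨h0.1, ?_, ?_⟩
    · simpa using h0.2.1
    · simpa using h0.2.2

end Pool.Agent.Results.MP_451208_an.NotSurjunctive
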